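import Pool.Agent.helper58.CRO.SpecE

/-!
# Row SPI of project cro: the injectivity radius of the round sphere is at least `π`
-/

open scoped Manifold ContDiff Topology ENNReal
open MeasureTheory Set Bundle Filter

noncomputable section

namespace Pool.Agent.CRO

theorem SPI_fderiv {n : ℕ} (x : En (n + 1)) (hx : ‖x‖ = 1) (J : En n →ₗᵢ[ℝ] En (n + 1)) :
    HasFDerivAt (fun y : En n => Real.cos ‖y‖ • x + Real.sinc ‖y‖ • J y)
      J.toContinuousLinearMap 0 := by
  rw [hasFDerivAt_iff_isLittleO_nhds_zero]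
  have h1 : (fun h : En n => Real.cos ‖0 + h‖ • x + Real.sinc ‖0 + h‖ • J (0 + h) -
      (Real.cos ‖(0 : En n)‖ • x + Real.sinc ‖(0 : En n)‖ • J 0) - J.toContinuousLinearMap h) =
      fun h : En n => (Real.cos ‖h‖ - 1) • x + (Real.sinc ‖h‖ - 1) • J h := by
    funext h
    simp only [zero_add, norm_zero, Real.cos_zero, Real.sinc_zero, map_zero, smul_zero, add_zero,
      one_smul, sub_smul]
    have : J.toContinuousLinearMap h = J h := rfl
    rw [this]
    abel
  rw [h1]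
  refine Asymptotics.IsLittleO.add ?_ ?_
  · have h2 : (fun h : En n => (Real.cos ‖h‖ - 1) • x) =O[𝓝 0] fun h : En n => ‖h‖ ^ 2 := by
      refine Asymptotics.IsBigO.of_bound 1 (Eventually.of_forall fun h => ?_)
      rw [norm_smul, hx, mul_one, one_mul, Real.norm_eq_abs, Real.norm_of_nonneg (by positivity)]
      have h3 := Real.one_sub_sq_div_two_le_cos (x := ‖h‖)
      have h4 := Real.cos_le_one ‖h‖
      rw [abs_of_nonpos (by linarith)]
      nlinarith [sq_nonneg ‖h‖]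
    refine h2.trans_isLittleO ?_
    have h3 : (fun h : En n => ‖h‖ ^ 2) =o[𝓝 0] fun h : En n => h := by
      refine Asymptotics.isLittleO_norm_pow_id ?_
      norm_num
    exact h3
  · have h2 : Tendsto (fun h : En n => Real.sinc ‖h‖ - 1) (𝓝 0) (𝓝 0) := by
      have h3 : Continuous fun h : En n => Real.sinc ‖h‖ - 1 :=
        (Real.continuous_sinc.comp continuous_norm).sub continuous_const
      have h4 := h3.tendsto 0
      simpa using h4
    have h3 : (fun h : En n => Real.sinc ‖h‖ - 1) =o[𝓝 0] fun _ : En n => (1 : ℝ) :=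
      (Asymptotics.isLittleO_one_iff ℝ).2 h2
    have h4 : (fun h : En n => J h) =O[𝓝 0] fun h : En n => h := by
      refine Asymptotics.IsBigO.of_bound 1 (Eventually.of_forall fun h => ?_)
      rw [J.norm_map, one_mul]
    have h5 := h3.smul_isBigO h4
    simpa using h5

/-- the curve in the ambient space -/
theorem SPI_curve {n : ℕ} (x : En (n + 1)) (J : En n →ₗᵢ[ℝ] En (n + 1)) (v : En n) (s : ℝ) :
    Real.cos ‖s • v‖ • x + Real.sinc ‖s • v‖ • J (s • v) =
      Real.cos (‖v‖ * s) • x + (Real.sinc (‖v‖ * s) * s) • J v := by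
  have h1 : ‖s • v‖ = |‖v‖ * s| := by
    rw [norm_smul, Real.norm_eq_abs, abs_mul, abs_norm, mul_comm]
  have h2 : Real.cos |‖v‖ * s| = Real.cos (‖v‖ * s) := Real.cos_abs _
  have h3 : Real.sinc |‖v‖ * s| = Real.sinc (‖v‖ * s) := by
    rcases abs_choice (‖v‖ * s) with h | h
    · rw [h]
    · rw [h, Real.sinc_neg]
  rw [h1, h2, h3, map_smul, smul_smul]

theorem SPI_sinc (a s : ℝ) (ha : a ≠ 0) : Real.sinc (a * s) * s = Real.sin (a * s) / a := by
  rcases eq_or_ne s 0 with rfl | hs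
  · simp
  · rw [Real.sinc_of_ne_zero (mul_ne_zero ha hs)]
    field_simp

theorem SPI_deriv {n : ℕ} (x : En (n + 1)) (J : En n →ₗᵢ[ℝ] En (n + 1)) (v : En n) (t : ℝ) :
    HasDerivAt (fun s : ℝ => Real.cos (‖v‖ * s) • x + (Real.sinc (‖v‖ * s) * s) • J v)
      (-(‖v‖ * Real.sin (‖v‖ * t)) • x + Real.cos (‖v‖ * t) • J v) t := by
  have hlin : HasDerivAt (fun s : ℝ => ‖v‖ * s) ‖v‖ t := by
    simpa using (hasDerivAt_id t).const_mul ‖v‖
  rcases eq_or_ne v 0 with rfl | hv
  · simp only [norm_zero, zero_mul, Real.cos_zero, one_smul, map_zero, smul_zero, add_zero,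
      neg_zero, zero_smul]
    exact hasDerivAt_const t x
  · have ha : ‖v‖ ≠ 0 := norm_ne_zero_iff.2 hv
    have h1 : (fun s : ℝ => Real.cos (‖v‖ * s) • x + (Real.sinc (‖v‖ * s) * s) • J v) =
        fun s : ℝ => Real.cos (‖v‖ * s) • x + (Real.sin (‖v‖ * s) / ‖v‖) • J v := by
      funext s
      rw [SPI_sinc _ _ ha]
    rw [h1]
    have h2 : HasDerivAt (fun s : ℝ => Real.cos (‖v‖ * s)) (-(‖v‖ * Real.sin (‖v‖ * t))) t := by
      have := (Real.hasDerivAt_cos (‖v‖ * t)).comp t hlin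
      have h3 : -Real.sin (‖v‖ * t) * ‖v‖ = -(‖v‖ * Real.sin (‖v‖ * t)) := by ring
      rw [← h3]
      exact this
    have h3 : HasDerivAt (fun s : ℝ => Real.sin (‖v‖ * s) / ‖v‖) (Real.cos (‖v‖ * t)) t := by
      have := ((Real.hasDerivAt_sin (‖v‖ * t)).comp t hlin).div_const ‖v‖
      have h4 : Real.cos (‖v‖ * t) * ‖v‖ / ‖v‖ = Real.cos (‖v‖ * t) := by field_simp
      rw [h4] at this
      exact this
    exact (h2.smul_const x).add (h3.smul_const (J v))

theorem SPI_deriv2 {n : ℕ} (x : En (n + 1)) (J : En n →ₗᵢ[ℝ] En (n + 1)) (v : En n) (t : ℝ) :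
    HasDerivAt (fun s : ℝ => -(‖v‖ * Real.sin (‖v‖ * s)) • x + Real.cos (‖v‖ * s) • J v)
      (-(‖v‖ ^ 2 • (Real.cos (‖v‖ * t) • x + (Real.sinc (‖v‖ * t) * t) • J v))) t := by
  have hlin : HasDerivAt (fun s : ℝ => ‖v‖ * s) ‖v‖ t := by
    simpa using (hasDerivAt_id t).const_mul ‖v‖
  have h2 : HasDerivAt (fun s : ℝ => -(‖v‖ * Real.sin (‖v‖ * s)))
      (-(‖v‖ * (Real.cos (‖v‖ * t) * ‖v‖))) t :=
    (((Real.hasDerivAt_sin (‖v‖ * t)).comp t hlin).const_mul ‖v‖).neg
  have h3 : HasDerivAt (fun s : ℝ => Real.cos (‖v‖ * s)) (-Real.sin (‖v‖ * t) * ‖v‖) t :=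
    (Real.hasDerivAt_cos (‖v‖ * t)).comp t hlin
  have h4 := (h2.smul_const x).add (h3.smul_const (J v))
  have h5 : -(‖v‖ ^ 2 • (Real.cos (‖v‖ * t) • x + (Real.sinc (‖v‖ * t) * t) • J v)) =
      -(‖v‖ * (Real.cos (‖v‖ * t) * ‖v‖)) • x + (-Real.sin (‖v‖ * t) * ‖v‖) • J v := by
    rcases eq_or_ne v 0 with rfl | hv
    · simp
    · rw [SPI_sinc _ _ (norm_ne_zero_iff.2 hv), smul_add, smul_smul, smul_smul, neg_add,
        ← neg_smul, ← neg_smul]
      congr 2
      · ring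
      · have := norm_ne_zero_iff.2 hv
        field_simp
  rw [h5]
  exact h4

theorem SPI (h1 : SPF_stmt) (h2 : SPN_stmt) (h3 : SPL_stmt) : SPI_stmt := by
  intro n g hg x
  obtain ⟨χ, J, hχ, htg, hxs, hx0, horth, hE⟩ := h2 n x
  have hx1 : ‖(x : En (n + 1))‖ = 1 := by
    have := x.2
    rw [mem_sphere_iff_norm, sub_zero] at this
    exact this
  have h0t : (0 : En n) ∈ χ.target := by
    rw [htg]
    exact Metric.mem_ball_self Real.pi_pos
  refine ⟨χ, hχ, htg, hxs, hx0, ?_, ?_⟩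
  · intro v w
    obtain ⟨_, hc⟩ := h1 n g hg χ hχ
    rw [hc 0 h0t v w]
    have hev : (fun y : En n => ((χ.symm y : Sn n) : En (n + 1))) =ᶠ[𝓝 0]
        fun y : En n => Real.cos ‖y‖ • (x : En (n + 1)) + Real.sinc ‖y‖ • J y := by
      filter_upwards [Metric.ball_mem_nhds (0 : En n) Real.pi_pos] with y hy
      exact hE y hy
    have hfd : fderiv ℝ (fun y : En n => ((χ.symm y : Sn n) : En (n + 1))) 0 =
        J.toContinuousLinearMap := by
      rw [hev.fderiv_eq]
      exact (SPI_fderiv (x : En (n + 1)) hx1 J).fderiv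
    rw [hfd]
    exact J.inner_map_map v w
  · intro v
    have hI : IsOpen {t : ℝ | |t| * ‖v‖ < Real.pi} :=
      isOpen_lt (continuous_abs.mul continuous_const) continuous_const
    have hball : ∀ t : ℝ, |t| * ‖v‖ < Real.pi → t • v ∈ Metric.ball (0 : En n) Real.pi := by
      intro t ht
      rw [mem_ball_zero_iff, norm_smul, Real.norm_eq_abs]
      exact ht
    have hcur : ∀ t : ℝ, |t| * ‖v‖ < Real.pi → ((χ.symm (t • v) : Sn n) : En (n + 1)) =
        Real.cos (‖v‖ * t) • (x : En (n + 1)) + (Real.sinc (‖v‖ * t) * t) • J v := by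
      intro t ht
      rw [hE _ (hball t ht), SPI_curve]
    refine h3 n g hg (fun t => χ.symm (t • v)) {t : ℝ | |t| * ‖v‖ < Real.pi} (‖v‖ ^ 2)
      (fun s : ℝ => -(‖v‖ * Real.sin (‖v‖ * s)) • (x : En (n + 1)) + Real.cos (‖v‖ * s) • J v)
      hI ?_ ?_
    · have hs : ContMDiffOn 𝓘(ℝ, En n) (𝓡 n) ∞ χ.symm χ.target :=
        contMDiffOn_symm_of_mem_maximalAtlas hχ
      have hl : ContMDiff 𝓘(ℝ, ℝ) 𝓘(ℝ, En n) ∞ (fun t : ℝ => t • v) :=
        (contDiff_id.smul contDiff_const).contMDiff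
      refine hs.comp hl.contMDiffOn ?_
      intro t ht
      rw [mem_preimage, htg]
      exact hball t ht
    · intro t ht
      constructor
      · refine (SPI_deriv (x : En (n + 1)) J v t).congr_of_eventuallyEq ?_
        filter_upwards [hI.mem_nhds ht] with s hs
        exact hcur s hs
      · have := SPI_deriv2 (x : En (n + 1)) J v t
        rw [← hcur t ht] at this
        exact this

end Pool.Agent.CRO
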