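import Pool.Agent.helper58.CRO.SpecI
import Pool.Agent.helper79.CRO.Lib

set_option autoImplicit false

open scoped Manifold ContDiff Topology ENNReal
open MeasureTheory Set

noncomputable section

namespace Pool.Agent.CRO

variable {n : ℕ} {r0 : ℝ}

theorem ICP_nontrivial (hn : 2 ≤ n) : Nontrivial (En n) := by
  refine ⟨0, EuclideanSpace.single ⟨0, by omega⟩ 1, ?_⟩
  intro h
  have := congrArg (fun v : En n => v ⟨0, by omega⟩) h
  simp at this

/-- polarization -/
theorem ICP_polar (A : En n →L[ℝ] En n) (hA : PosDefOp A) (S : En n →ₗ[ℝ] En n)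
    (hS : ∀ p, inner ℝ (A p) p = ‖S p‖ ^ 2) (p q : En n) : inner ℝ (A p) q = inner ℝ (S p) (S q) := by
  have h1 := hS (p + q)
  rw [map_add, map_add, inner_add_left, inner_add_right, inner_add_right, norm_add_sq_real, hS p, hS q] at h1
  have h2 : inner ℝ (A q) p = inner ℝ (A p) q := by
    rw [hA.1 q p, real_inner_comm]
  rw [h2] at h1
  linarith

/-- the part of the unit ball outside the ball of radius `e` -/
theorem ICP_shell (hn : 2 ≤ n) (e : ℝ) (he : 0 < e) (he1 : e < 1) (g : En n → ℝ≥0∞) (hg : Measurable g)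
    (hom : ∀ q, g (e • q) = g q) (hfin : ∫⁻ q in Metric.ball (0 : En n) 1, g q ≠ ⊤) :
    ∫⁻ q in {q : En n | e < ‖q‖ ∧ ‖q‖ < 1}, g q =
      ENNReal.ofReal (1 - e ^ n) * ∫⁻ q in Metric.ball (0 : En n) 1, g q := by
  have hnt := ICP_nontrivial hn
  have hen : 0 < e ^ n := pow_pos he n
  have hen1 : e ^ n ≤ 1 := pow_le_one₀ he.le he1.le
  obtain ⟨I, hI⟩ : ∃ I : ℝ≥0∞, I = ∫⁻ q in Metric.ball (0 : En n) 1, g q := ⟨_, rfl⟩
  have hcl : ∫⁻ q in Metric.closedBall (0 : En n) 1, g q = I := by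
    rw [hI]
    have h1 : Metric.closedBall (0 : En n) 1 =ᵐ[volume] Metric.ball (0 : En n) 1 := by
      have h2 : volume (Metric.sphere (0 : En n) 1) = 0 := Measure.addHaar_sphere volume 0 1
      rw [← Metric.ball_union_sphere]
      exact union_ae_eq_left_of_ae_eq_empty (ae_eq_empty.2 h2)
    rw [Measure.restrict_congr_set h1]
  have hsc : ∫⁻ q in Metric.closedBall (0 : En n) e, g q = ENNReal.ofReal (e ^ n) * I := by
    have h1 := Measure.map_addHaar_smul (volume : Measure (En n)) he.ne'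
    rw [finrank_euclideanSpace_fin] at h1
    obtain ⟨h, hh⟩ : ∃ h : En n → ℝ≥0∞, h = (Metric.closedBall (0 : En n) e).indicator g := ⟨_, rfl⟩
    have hhm : Measurable h := by
      rw [hh]
      exact hg.indicator Metric.isClosed_closedBall.measurableSet
    have h2 : ∫⁻ q, h (e • q) = ENNReal.ofReal |(e ^ n)⁻¹| * ∫⁻ q, h q := by
      rw [← lintegral_map hhm (measurable_const_smul e), h1, lintegral_smul_measure, smul_eq_mul]
    have h3 : ∀ q, h (e • q) = (Metric.closedBall (0 : En n) 1).indicator g q := by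
      intro q
      have h4 : e • q ∈ Metric.closedBall (0 : En n) e ↔ q ∈ Metric.closedBall (0 : En n) 1 := by
        rw [mem_closedBall_zero_iff, mem_closedBall_zero_iff, norm_smul, Real.norm_of_nonneg he.le]
        exact mul_le_iff_le_one_right he
      rw [hh]
      by_cases hq : q ∈ Metric.closedBall (0 : En n) 1
      · rw [indicator_of_mem hq, indicator_of_mem (h4.2 hq), hom]
      · rw [indicator_of_notMem hq, indicator_of_notMem (fun hq' => hq (h4.1 hq'))]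
    have h5 : ∫⁻ q, h (e • q) = I := by
      rw [← hcl, ← lintegral_indicator Metric.isClosed_closedBall.measurableSet]
      exact lintegral_congr h3
    have h6 : ∫⁻ q, h q = ∫⁻ q in Metric.closedBall (0 : En n) e, g q := by
      rw [hh, lintegral_indicator Metric.isClosed_closedBall.measurableSet]
    rw [h5, h6, abs_of_pos (inv_pos.2 hen)] at h2
    rw [h2, ← mul_assoc, ← ENNReal.ofReal_mul hen.le, mul_inv_cancel₀ hen.ne', ENNReal.ofReal_one, one_mul]
  have hset : {q : En n | e < ‖q‖ ∧ ‖q‖ < 1} = Metric.ball (0 : En n) 1 \ Metric.closedBall (0 : En n) e := by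
    ext q
    rw [mem_sdiff, mem_ball_zero_iff, mem_closedBall_zero_iff, not_le]
    exact And.comm
  have hsub : Metric.closedBall (0 : En n) e ⊆ Metric.ball (0 : En n) 1 := Metric.closedBall_subset_ball he1
  have hsplit : I = ENNReal.ofReal (e ^ n) * I + ∫⁻ q in {q : En n | e < ‖q‖ ∧ ‖q‖ < 1}, g q := by
    have h1 := lintegral_inter_add_sdiff g (Metric.ball (0 : En n) 1)
      (Metric.isClosed_closedBall (x := (0 : En n)) (ε := e)).measurableSet (μ := volume)
    rw [inter_eq_self_of_subset_right hsub, hsc, ← hset, ← hI] at h1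
    exact h1.symm
  rw [← hI]
  have hIf : I ≠ ⊤ := by
    rw [hI]
    exact hfin
  have h7 : I = ENNReal.ofReal (e ^ n) * I + ENNReal.ofReal (1 - e ^ n) * I := by
    rw [← add_mul, ← ENNReal.ofReal_add hen.le (by linarith)]
    rw [show e ^ n + (1 - e ^ n) = 1 by ring, ENNReal.ofReal_one, one_mul]
  have h8 : ENNReal.ofReal (e ^ n) * I ≠ ⊤ := ENNReal.mul_ne_top ENNReal.ofReal_ne_top hIf
  have h9 : ENNReal.ofReal (e ^ n) * I + ∫⁻ q in {q : En n | e < ‖q‖ ∧ ‖q‖ < 1}, g q =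
      ENNReal.ofReal (e ^ n) * I + ENNReal.ofReal (1 - e ^ n) * I := by
    rw [← hsplit, ← h7]
  exact (ENNReal.add_right_inj h8).1 h9

/-- the fibre integral -/
theorem ICP_inner (𝒢 : NChart n r0) (hn : 2 ≤ n) (e : ℝ) (he : 0 < e) (he1 : e < 1) (φ : ℝ → ℝ≥0∞)
    (hφ : Measurable φ) (k : ℝ)
    (hI : ∀ u : En n, ‖u‖ = 1 → ∫⁻ q in Metric.ball (0 : En n) 1, φ (inner ℝ u q / ‖q‖) = ENNReal.ofReal k)
    (x : En n) (hx : x ≠ 0) (hxr : ‖x‖ < r0) :
    ∫⁻ p, ({p : En n | e < sp 𝒢 (x, p) ∧ sp 𝒢 (x, p) < 1}.indicator (fun p => φ (rc 𝒢 (x, p)))) p =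
      ENNReal.ofReal (H79L_f 𝒢 x) * (ENNReal.ofReal (1 - e ^ n) * ENNReal.ofReal k) := by
  have hA := 𝒢.pos x hxr
  obtain ⟨S, h1, h2, h3⟩ := H79L_sqrt (𝒢.G x) hA
  have hx0 : 0 < ‖x‖ := norm_pos_iff.2 hx
  obtain ⟨xh, hxh⟩ : ∃ xh : En n, xh = ‖x‖⁻¹ • x := ⟨_, rfl⟩
  have hxh1 : ‖xh‖ = 1 := by
    rw [hxh, norm_smul, norm_inv, norm_norm, inv_mul_cancel₀ hx0.ne']
  have hGx : 𝒢.G x xh = xh := by
    rw [hxh, map_smul, 𝒢.gauss x hxr]
  obtain ⟨u, hu⟩ : ∃ u : En n, u = S xh := ⟨_, rfl⟩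
  have hu1 : ‖u‖ = 1 := by
    have h4 := h1 xh
    rw [hGx, real_inner_self_eq_norm_sq, hxh1, ← hu] at h4
    have h5 : 0 ≤ ‖u‖ := norm_nonneg u
    nlinarith
  have hinner : ∀ p, inner ℝ u (S p) = inner ℝ xh p := by
    intro p
    rw [hu, ← ICP_polar (𝒢.G x) hA S h1 xh p, hGx]
  have hsp : ∀ p, sp 𝒢 (x, p) = ‖S p‖ := by
    intro p
    unfold sp nrm2
    rw [h1 p, Real.sqrt_sq (norm_nonneg _)]
  have hrc : ∀ p, rc 𝒢 (x, p) = inner ℝ u (S p) / ‖S p‖ := by
    intro p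
    unfold rc
    rw [hsp p, hinner p, hxh, real_inner_smul_left]
    show inner ℝ x p / (‖x‖ * ‖S p‖) = ‖x‖⁻¹ * inner ℝ x p / ‖S p‖
    rw [div_eq_mul_inv, mul_inv, div_eq_mul_inv]
    ring
  obtain ⟨g, hg⟩ : ∃ g : En n → ℝ≥0∞, g = fun q => φ (inner ℝ u q / ‖q‖) := ⟨_, rfl⟩
  have hgm : Measurable g := by
    rw [hg]
    exact hφ.comp (((continuous_const.inner continuous_id).measurable).div continuous_norm.measurable)
  have hom : ∀ q, g (e • q) = g q := by
    intro q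
    rw [hg]
    show φ (inner ℝ u (e • q) / ‖e • q‖) = φ (inner ℝ u q / ‖q‖)
    rw [real_inner_smul_right, norm_smul, Real.norm_of_nonneg he.le, mul_div_mul_left _ _ he.ne']
  obtain ⟨T, hT⟩ : ∃ T : Set (En n), T = {q : En n | e < ‖q‖ ∧ ‖q‖ < 1} := ⟨_, rfl⟩
  have hTm : MeasurableSet T := by
    rw [hT]
    exact (measurableSet_lt measurable_const continuous_norm.measurable).inter
      (measurableSet_lt continuous_norm.measurable measurable_const)
  have hfun : ∀ p, ({p : En n | e < sp 𝒢 (x, p) ∧ sp 𝒢 (x, p) < 1}.indicator (fun p => φ (rc 𝒢 (x, p)))) p =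
      (T.indicator g) (S p) := by
    intro p
    have h4 : p ∈ {p : En n | e < sp 𝒢 (x, p) ∧ sp 𝒢 (x, p) < 1} ↔ S p ∈ T := by
      rw [hT]
      show (e < sp 𝒢 (x, p) ∧ sp 𝒢 (x, p) < 1) ↔ (e < ‖S p‖ ∧ ‖S p‖ < 1)
      rw [hsp p]
    by_cases hp : S p ∈ T
    · rw [indicator_of_mem hp, indicator_of_mem (h4.2 hp), hg]
      show φ (rc 𝒢 (x, p)) = φ (inner ℝ u (S p) / ‖S p‖)
      rw [hrc p]
    · rw [indicator_of_notMem hp, indicator_of_notMem (fun h => hp (h4.1 h))]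
  have hSm : Measurable (S : En n → En n) := S.continuous_of_finiteDimensional.measurable
  rw [lintegral_congr hfun, ← lintegral_map (hgm.indicator hTm) hSm,
    Measure.map_linearMap_addHaar_eq_smul_addHaar volume h3, lintegral_smul_measure, smul_eq_mul,
    lintegral_indicator hTm, hT, ICP_shell hn e he he1 g hgm hom (by
      rw [hg, hI u hu1]
      exact ENNReal.ofReal_ne_top), hg, hI u hu1]
  congr 2
  unfold H79L_f
  rw [h2, Real.sqrt_sq_eq_abs, abs_inv]

/-- the general formula -/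
theorem ICP_gen (𝒢 : NChart n r0) (hn : 2 ≤ n) (e ρa ρb : ℝ) (he : 0 < e) (he1 : e < 1) (ha : 0 ≤ ρa)
    (hab : ρa < ρb) (hb : ρb < r0) (φ : ℝ → ℝ≥0∞) (hφ : Measurable φ) (k : ℝ)
    (hI : ∀ u : En n, ‖u‖ = 1 → ∫⁻ q in Metric.ball (0 : En n) 1, φ (inner ℝ u q / ‖q‖) = ENNReal.ofReal k) :
    ∫⁻ z in {z : PS n | (ρa ≤ ‖z.1‖ ∧ ‖z.1‖ < ρb) ∧ e < sp 𝒢 z ∧ sp 𝒢 z < 1}, φ (rc 𝒢 z) =
      ENNReal.ofReal ((1 - e ^ n) * (k * (VV 𝒢 ρb - VV 𝒢 ρa))) := by
  classical
  have hnt := ICP_nontrivial hn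
  -- measurability
  obtain ⟨D, hD⟩ : ∃ D : Set (PS n), D = {z : PS n | ‖z.1‖ < r0} := ⟨_, rfl⟩
  have hDo : IsOpen D := by
    rw [hD]
    exact isOpen_lt continuous_fst.norm continuous_const
  obtain ⟨N', hN'⟩ : ∃ N' : PS n → ℝ, N' = D.piecewise (nrm2 𝒢) (fun _ => 0) := ⟨_, rfl⟩
  have hN'm : Measurable N' := by
    rw [hN']
    refine ContinuousOn.measurable_piecewise ?_ continuousOn_const hDo.measurableSet
    rw [hD]
    exact H79L_nrm2_cont 𝒢
  have hN'e : ∀ z ∈ D, N' z = nrm2 𝒢 z := by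
    intro z hz
    rw [hN', piecewise_eq_of_mem _ _ _ hz]
  obtain ⟨E, hE⟩ : ∃ E : Set (PS n), E = {z : PS n | (ρa ≤ ‖z.1‖ ∧ ‖z.1‖ < ρb) ∧ e < sp 𝒢 z ∧ sp 𝒢 z < 1} := ⟨_, rfl⟩
  have hED : E ⊆ D := by
    intro z hz
    rw [hE] at hz
    rw [hD]
    exact lt_trans hz.1.2 hb
  have hEm : MeasurableSet E := by
    have h1 : E = {z : PS n | (ρa ≤ ‖z.1‖ ∧ ‖z.1‖ < ρb) ∧ e < Real.sqrt (N' z) ∧ Real.sqrt (N' z) < 1} := by
      ext z
      constructor
      · intro hz
        have h2 := hN'e z (hED hz)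
        rw [hE] at hz
        refine ⟨hz.1, ?_⟩
        rw [h2]
        exact hz.2
      · intro hz
        have hzD : z ∈ D := by
          rw [hD]
          exact lt_trans hz.1.2 hb
        have h2 := hN'e z hzD
        obtain ⟨h3, h4⟩ := hz
        rw [h2] at h4
        rw [hE]
        exact ⟨h3, h4⟩
    rw [h1]
    have hm1 : Measurable (fun z : PS n => ‖z.1‖) := continuous_fst.norm.measurable
    have hm2 : Measurable (fun z : PS n => Real.sqrt (N' z)) := hN'm.sqrt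
    exact ((measurableSet_le measurable_const hm1).inter (measurableSet_lt hm1 measurable_const)).inter
      ((measurableSet_lt measurable_const hm2).inter (measurableSet_lt hm2 measurable_const))
  have hFm : Measurable (E.indicator (fun z => φ (rc 𝒢 z))) := by
    have h1 : E.indicator (fun z => φ (rc 𝒢 z)) =
        E.indicator (fun z => φ (inner ℝ z.1 z.2 / (‖z.1‖ * Real.sqrt (N' z)))) := by
      refine indicator_congr fun z hz => ?_
      unfold rc sp
      rw [hN'e z (hED hz)]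
    rw [h1]
    refine Measurable.indicator (hφ.comp ?_) hEm
    have hm0 : Measurable (fun z : PS n => (inner ℝ z.1 z.2 : ℝ)) :=
      (continuous_fst.inner continuous_snd).measurable
    have hm1 : Measurable (fun z : PS n => ‖z.1‖) := continuous_fst.norm.measurable
    exact hm0.div (hm1.mul hN'm.sqrt)
  rw [← hE, ← lintegral_indicator hEm, Measure.volume_eq_prod, lintegral_prod _ hFm.aemeasurable]
  -- the shell
  obtain ⟨Sh, hSh⟩ : ∃ Sh : Set (En n), Sh = Metric.ball (0 : En n) ρb \ Metric.ball (0 : En n) ρa := ⟨_, rfl⟩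
  have hShm : MeasurableSet Sh := by
    rw [hSh]
    exact measurableSet_ball.diff measurableSet_ball
  have hmem : ∀ x, x ∈ Sh ↔ ρa ≤ ‖x‖ ∧ ‖x‖ < ρb := by
    intro x
    rw [hSh, mem_sdiff, mem_ball_zero_iff, mem_ball_zero_iff, not_lt]
    exact And.comm
  have hne : ∀ᵐ x : En n, x ≠ 0 := by
    have : volume ({0} : Set (En n)) = 0 := by
      have h1 := Measure.addHaar_sphere (volume : Measure (En n)) 0 0
      rwa [Metric.sphere_zero] at h1
    exact compl_mem_ae_iff.2 this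
  have hfib : ∀ᵐ x : En n, ∫⁻ p, E.indicator (fun z => φ (rc 𝒢 z)) (x, p) =
      Sh.indicator (fun x => ENNReal.ofReal (H79L_f 𝒢 x) * (ENNReal.ofReal (1 - e ^ n) * ENNReal.ofReal k)) x := by
    filter_upwards [hne] with x hx
    by_cases hxS : x ∈ Sh
    · rw [indicator_of_mem hxS]
      have hxS' := (hmem x).1 hxS
      rw [← ICP_inner 𝒢 hn e he he1 φ hφ k hI x hx (lt_trans hxS'.2 hb)]
      refine lintegral_congr fun p => ?_
      have h4 : (x, p) ∈ E ↔ p ∈ {p : En n | e < sp 𝒢 (x, p) ∧ sp 𝒢 (x, p) < 1} := by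
        rw [hE]
        exact ⟨fun h => h.2, fun h => ⟨hxS', h⟩⟩
      by_cases hp : (x, p) ∈ E
      · rw [indicator_of_mem hp, indicator_of_mem (h4.1 hp)]
      · rw [indicator_of_notMem hp, indicator_of_notMem (fun h => hp (h4.2 h))]
    · rw [indicator_of_notMem hxS]
      have h5 : ∀ p, E.indicator (fun z => φ (rc 𝒢 z)) (x, p) = 0 := by
        intro p
        refine indicator_of_notMem ?_ _
        intro h
        rw [hE] at h
        exact hxS ((hmem x).2 h.1)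
      rw [lintegral_congr h5, lintegral_zero]
  rw [lintegral_congr_ae hfib, lintegral_indicator hShm]
  have hfm : ∫⁻ x in Sh, ENNReal.ofReal (H79L_f 𝒢 x) * (ENNReal.ofReal (1 - e ^ n) * ENNReal.ofReal k) =
      (∫⁻ x in Sh, ENNReal.ofReal (H79L_f 𝒢 x)) * (ENNReal.ofReal (1 - e ^ n) * ENNReal.ofReal k) := by
    refine lintegral_mul_const' _ _ ?_
    exact ENNReal.mul_ne_top ENNReal.ofReal_ne_top ENNReal.ofReal_ne_top
  rw [hfm]
  have hVa : 0 ≤ VV 𝒢 ρa := setIntegral_nonneg measurableSet_ball fun x _ => H79L_f_nonneg 𝒢 x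
  have hVab : VV 𝒢 ρa ≤ VV 𝒢 ρb := setIntegral_mono_set (H79L_f_int 𝒢 ρb hb)
    (Filter.Eventually.of_forall fun x => H79L_f_nonneg 𝒢 x)
    (Filter.Eventually.of_forall (Metric.ball_subset_ball hab.le))
  have hsplit : ENNReal.ofReal (VV 𝒢 ρa) + ∫⁻ x in Sh, ENNReal.ofReal (H79L_f 𝒢 x) = ENNReal.ofReal (VV 𝒢 ρb) := by
    have h1 := lintegral_inter_add_sdiff (fun x => ENNReal.ofReal (H79L_f 𝒢 x)) (Metric.ball (0 : En n) ρb)
      (measurableSet_ball (x := (0 : En n)) (ε := ρa)) (μ := volume)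
    rw [inter_eq_self_of_subset_right (Metric.ball_subset_ball hab.le), ← hSh] at h1
    have h2 := H79L_VV_lint 𝒢 ρa (hab.trans hb) 1 zero_le_one
    have h3 := H79L_VV_lint 𝒢 ρb hb 1 zero_le_one
    simp only [one_mul] at h2 h3
    rw [h2, h3] at h1
    exact h1
  have hSh2 : ∫⁻ x in Sh, ENNReal.ofReal (H79L_f 𝒢 x) = ENNReal.ofReal (VV 𝒢 ρb - VV 𝒢 ρa) := by
    have h4 : ENNReal.ofReal (VV 𝒢 ρa) + ∫⁻ x in Sh, ENNReal.ofReal (H79L_f 𝒢 x) =
        ENNReal.ofReal (VV 𝒢 ρa) + ENNReal.ofReal (VV 𝒢 ρb - VV 𝒢 ρa) := by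
      rw [hsplit, ← ENNReal.ofReal_add hVa (by linarith)]
      congr 1
      ring
    exact (ENNReal.add_right_inj ENNReal.ofReal_ne_top).1 h4
  rw [hSh2]
  have hen1 : e ^ n ≤ 1 := pow_le_one₀ he.le he1.le
  rw [ENNReal.ofReal_mul (by linarith), ENNReal.ofReal_mul' (by linarith)]
  ring

theorem ICP (h1 : ISE_stmt) : ICP_stmt := by
  intro n r0 𝒢 e ρa ρb hn he he1 ha hab hb
  refine ⟨?_, ?_⟩
  · have h2 := ICP_gen 𝒢 hn e ρa ρb he he1 ha hab hb (fun _ => 1) measurable_const (kap n) (by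
      intro u _
      rw [lintegral_one, Measure.restrict_apply_univ]
      exact H79L_kap.symm)
    rw [lintegral_one, Measure.restrict_apply_univ] at h2
    exact h2
  · intro c hc0 hc1
    refine ⟨?_, ?_⟩
    · exact ICP_gen 𝒢 hn e ρa ρb he he1 ha hab hb (fun t => ENNReal.ofReal (t - c))
        (ENNReal.measurable_ofReal.comp (measurable_id.sub_const c)) (kap (n - 1) * BTc n c)
        (fun u hu => h1 n hn u hu c hc0 hc1)
    · refine ICP_gen 𝒢 hn e ρa ρb he he1 ha hab hb (fun t => ENNReal.ofReal (-t - c))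
        (ENNReal.measurable_ofReal.comp (measurable_neg.sub_const c)) (kap (n - 1) * BTc n c)
        (fun u hu => ?_)
      have h2 := h1 n hn (-u) (by rw [norm_neg]; exact hu) c hc0 hc1
      rw [← h2]
      refine lintegral_congr fun q => ?_
      rw [inner_neg_left, neg_div]

end Pool.Agent.CRO
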