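import Pool.Agent.helper58.CRO.SpecG

set_option autoImplicit false

open scoped Manifold ContDiff Topology ENNReal
open MeasureTheory Set Bundle Filter

noncomputable section

namespace Pool.Agent.CRO

universe u

theorem GF2 (h1 : GFN_stmt.{u}) (h2 : JLN_stmt) (h3 : JNU_stmt) (h4 : RAT_stmt) : GF2_stmt.{u} := by
  intro n hn M _ _ _ _ _ _ g m r hr hinj
  refine le_trans (ENNReal.ofReal_le_ofReal ?_) (h1 n hn M g m r hr hinj)
  obtain ⟨hX0, _, hkap, _, _, _, hsv⟩ := h3 n hn
  obtain ⟨hll, hle⟩ := h2 n hn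
  have hn0 : (0 : ℝ) < n := by exact_mod_cast (show 0 < n by omega)
  have hs : 0 < sphereVol n := by
    rw [hsv]
    positivity
  refine mul_le_mul_of_nonneg_right ?_ (by positivity)
  rw [le_div_iff₀ (by positivity)]
  have h5 : ((n : ℝ) + 2) / (n + 3) * (n * ll n) ≤ ((n : ℝ) + 2) / (n + 3) * (n * (((n : ℝ) + 3) / (n + 2) * (cW n / n))) :=
    mul_le_mul_of_nonneg_left (mul_le_mul_of_nonneg_left hle hn0.le) (by positivity)
  have h6 : ((n : ℝ) + 2) / (n + 3) * (n * (((n : ℝ) + 3) / (n + 2) * (cW n / n))) = cW n := by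
    field_simp
  rw [h6] at h5
  exact h5

end Pool.Agent.CRO
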