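import Pool.Agent.helper58.CRO.SpecJ

set_option autoImplicit false

open scoped Manifold ContDiff Topology ENNReal
open MeasureTheory Set

noncomputable section

namespace Pool.Agent.CRO

variable {n : ℕ} {r0 : ℝ}

theorem JML_isum (N : ℕ) : ∑ j ∈ Finset.Icc 1 N, 1 / √(j : ℝ) ≤ 2 * √(N : ℝ) := by
  induction N with
  | zero => simp
  | succ N ih =>
      rw [Finset.sum_Icc_succ_top (by omega)]
      have h1 : √(N : ℝ) ≤ √((N + 1 : ℕ) : ℝ) := Real.sqrt_le_sqrt (by push_cast; linarith)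
      have h2 : 0 < √((N + 1 : ℕ) : ℝ) := Real.sqrt_pos.2 (by positivity)
      have h3 : √((N + 1 : ℕ) : ℝ) * √((N + 1 : ℕ) : ℝ) = N + 1 := by
        rw [Real.mul_self_sqrt (by positivity)]
        push_cast
        ring
      have h4 : √(N : ℝ) * √(N : ℝ) = N := Real.mul_self_sqrt (by positivity)
      have h0 : 0 ≤ √(N : ℝ) := Real.sqrt_nonneg _
      have h5 : 1 / √((N + 1 : ℕ) : ℝ) ≤ 2 * √((N + 1 : ℕ) : ℝ) - 2 * √(N : ℝ) := by
        rw [div_le_iff₀ h2]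
        nlinarith
      linarith

theorem JML_F (n : ℕ) (hn : 2 ≤ n) (Ω a l : ℝ) (hΩ : 0 < Ω) (ha : 0 < a) (ha2 : a < Real.pi / 2) (hl : 0 < l) :
    1 - (l * Real.sin a / Wf Ω a l) ^ (n - 1) ≤ n * √(Ω * Real.cos a / (l * Real.sin a)) := by
  have hs : 0 < Real.sin a := Real.sin_pos_of_pos_of_lt_pi ha (by linarith [Real.pi_pos])
  have hc : 0 < Real.cos a := Real.cos_pos_of_mem_Ioo ⟨by linarith, ha2⟩
  obtain ⟨S, hS⟩ : ∃ S : ℝ, S = l * Real.sin a := ⟨_, rfl⟩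
  obtain ⟨B, hB⟩ : ∃ B : ℝ, B = Ω * Real.cos a := ⟨_, rfl⟩
  have hSp : 0 < S := by rw [hS]; positivity
  have hBp : 0 < B := by rw [hB]; positivity
  obtain ⟨W, hW⟩ : ∃ W : ℝ, W = Wf Ω a l := ⟨_, rfl⟩
  have hW1 : W = √(B ^ 2 + S ^ 2) := by
    rw [hW, hB, hS]
    unfold Wf
    rw [mul_pow, mul_pow]
  have hWp : 0 < W := by
    rw [hW1]
    exact Real.sqrt_pos.2 (by positivity)
  have hW2 : W ^ 2 = B ^ 2 + S ^ 2 := by
    rw [hW1]
    exact Real.sq_sqrt (by positivity)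
  rw [← hS, ← hB, ← hW]
  obtain ⟨u, hu⟩ : ∃ u : ℝ, u = S / W := ⟨_, rfl⟩
  rw [← hu]
  have hu0 : 0 < u := by rw [hu]; positivity
  have hSW : S ≤ W := by
    refine (pow_le_pow_iff_left₀ hSp.le hWp.le (by norm_num : (2 : ℕ) ≠ 0)).1 ?_
    rw [hW2]
    nlinarith
  have hu1 : u ≤ 1 := by
    rw [hu, div_le_one hWp]
    exact hSW
  have hb : 1 + ((n - 1 : ℕ) : ℝ) * (u - 1) ≤ u ^ (n - 1) := by
    have h1 := one_add_mul_le_pow (show (-2 : ℝ) ≤ u - 1 by linarith) (n - 1)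
    rw [show 1 + (u - 1) = u by ring] at h1
    exact h1
  have hn1 : ((n - 1 : ℕ) : ℝ) ≤ n := by exact_mod_cast Nat.sub_le n 1
  have hmain : 1 - u ≤ √(B / S) := by
    have hw0 : 0 < B / S := by positivity
    rcases le_or_gt 1 (B / S) with h | h
    · have h1 : 1 ≤ √(B / S) := Real.one_le_sqrt.2 h
      linarith
    · have h1 : 1 - u ≤ 1 - u ^ 2 := by nlinarith
      have h2 : 1 - u ^ 2 ≤ (B / S) ^ 2 := by
        rw [hu, div_pow, div_pow, hW2]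
        have e : 1 - S ^ 2 / (B ^ 2 + S ^ 2) = B ^ 2 / (B ^ 2 + S ^ 2) := by
          field_simp
          ring
        rw [e]
        exact div_le_div_of_nonneg_left (by positivity) (by positivity) (by nlinarith)
      have h3 : (B / S) ^ 2 ≤ B / S := by nlinarith
      have h4 : B / S ≤ √(B / S) := by
        have h5 : √(B / S) * √(B / S) = B / S := Real.mul_self_sqrt hw0.le
        have h6 : √(B / S) ≤ 1 := Real.sqrt_le_one.2 h.le
        have h7 : 0 ≤ √(B / S) := Real.sqrt_nonneg _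
        nlinarith
      linarith
  calc 1 - u ^ (n - 1) ≤ ((n - 1 : ℕ) : ℝ) * (1 - u) := by linarith
    _ ≤ n * √(B / S) := mul_le_mul hn1 hmain (by linarith) (Nat.cast_nonneg _)

theorem JML_lj (n : ℕ) (hn : 2 ≤ n) (v h om c x : ℝ) (hh : 0 < h) (hom : 0 < om) (hc : 0 < c) (hx : 0 ≤ x)
    (hv : c * x ^ (n - 1) * h ≤ v) :
    (c / om) ^ ((1 : ℝ) / ((n : ℝ) - 1)) * x ≤ (v / (h * om)) ^ ((1 : ℝ) / ((n : ℝ) - 1)) := by
  have hn1 : ((n - 1 : ℕ) : ℝ) = (n : ℝ) - 1 := by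
    rw [Nat.cast_sub (by omega), Nat.cast_one]
  have he : (1 : ℝ) / ((n : ℝ) - 1) = (((n - 1 : ℕ) : ℝ))⁻¹ := by rw [hn1, one_div]
  rw [he]
  have h1 : x = (x ^ (n - 1)) ^ ((((n - 1 : ℕ) : ℝ))⁻¹) := (Real.pow_rpow_inv_natCast hx (by omega)).symm
  have h2 : c / om * x ^ (n - 1) ≤ v / (h * om) := by
    rw [le_div_iff₀ (by positivity)]
    calc c / om * x ^ (n - 1) * (h * om) = c * x ^ (n - 1) * h := by field_simp
      _ ≤ v := hv
  calc (c / om) ^ ((((n - 1 : ℕ) : ℝ))⁻¹) * x = (c / om) ^ ((((n - 1 : ℕ) : ℝ))⁻¹) * (x ^ (n - 1)) ^ ((((n - 1 : ℕ) : ℝ))⁻¹) := by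
        rw [← h1]
    _ = (c / om * x ^ (n - 1)) ^ ((((n - 1 : ℕ) : ℝ))⁻¹) := by
        rw [Real.mul_rpow (by positivity) (by positivity)]
    _ ≤ _ := Real.rpow_le_rpow (by positivity) h2 (by positivity)

theorem JML (h1 : JMX_stmt) (h2 : JVL_stmt) (h3 : JNU_stmt) (h4 : JYH_stmt) : JML_stmt := by
  intro n r0 𝒢 L R hn hE hLen hR hRr hRL Ω0 Ωm η hΩ0 hΩm hη
  obtain ⟨_, hcW, hkap, _, _, _, _⟩ := h3 n hn
  obtain ⟨⟨c, C, hc, hC, hvv⟩, _⟩ := h2 n r0 𝒢 R hn hR hRr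
  have hnr : (2 : ℝ) ≤ n := by exact_mod_cast hn
  obtain ⟨om, hom⟩ : ∃ om : ℝ, om = n * kap n := ⟨_, rfl⟩
  have homp : 0 < om := by rw [hom]; positivity
  obtain ⟨c1, hc1⟩ : ∃ c1 : ℝ, c1 = (c / om) ^ ((1 : ℝ) / ((n : ℝ) - 1)) := ⟨_, rfl⟩
  have hc1p : 0 < c1 := by rw [hc1]; positivity
  have hΩmp : 0 < Ωm := by linarith
  have hsR : 0 < √R := Real.sqrt_pos.2 hR
  obtain ⟨ε, hε⟩ : ∃ ε : ℝ, ε = η / (4 * n * √R) := ⟨_, rfl⟩
  have hεp : 0 < ε := by rw [hε]; positivity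
  obtain ⟨T, hT⟩ : ∃ T : ℝ, T = Ωm / (c1 * ε ^ 2) := ⟨_, rfl⟩
  have hTp : 0 < T := by rw [hT]; positivity
  obtain ⟨a, ha⟩ : ∃ a : ℝ, a = Real.arctan T := ⟨_, rfl⟩
  have ha0 : 0 < a := by
    rw [ha]
    exact Real.arctan_pos.2 hTp
  have ha2 : a < Real.pi / 2 := by
    rw [ha]
    exact Real.arctan_lt_pi_div_two T
  have hs : 0 < Real.sin a := Real.sin_pos_of_pos_of_lt_pi ha0 (by linarith [Real.pi_pos])
  have hcos : 0 < Real.cos a := Real.cos_pos_of_mem_Ioo ⟨by linarith, ha2⟩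
  have hcot : Real.cos a / Real.sin a = 1 / T := by
    have h5 : Real.tan a = T := by
      rw [ha]
      exact Real.tan_arctan T
    rw [Real.tan_eq_sin_div_cos] at h5
    rw [← h5]
    field_simp
  obtain ⟨K, hK⟩ : ∃ K : ℝ, K = Ωm * (cW n * ((n + 1) * (C * R) / (n * kap n * (Ω0 * Real.cos a) ^ n))) := ⟨_, rfl⟩
  have hKp : 0 < K := by rw [hK]; positivity
  obtain ⟨N, hN⟩ : ∃ N : ℕ, N = ⌈2 * K / η⌉₊ + 1 := ⟨_, rfl⟩
  have hN1 : 1 ≤ N := by omega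
  have hNr : (0 : ℝ) < N := by exact_mod_cast hN1
  have hNK : 2 * K / η ≤ N := by
    rw [hN]
    push_cast
    linarith [Nat.le_ceil (2 * K / η)]
  refine ⟨N, hN1, fun Ω hΩ => ?_⟩
  have hΩp : 0 < Ω := by linarith [hΩ.1]
  have hh : 0 < R / N := by positivity
  -- the main inequality
  have hmx : ∀ j ∈ Finset.Icc 1 N, vv 𝒢 R N j ≤ C * (R / N) := fun j hj => (hvv N j hN1 hj).2
  have hJ := h1 n r0 𝒢 L R hn hE hLen hR hRr hRL N Ω a (C * (R / N)) hN1 hΩp ha0 ha2 hmx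
  -- the first error
  have hlj : ∀ j ∈ Finset.Icc 1 N, c1 * (j * (R / N)) ≤ lj 𝒢 R N j := by
    intro j hj
    unfold lj
    rw [← hom, hc1]
    exact JML_lj n hn _ _ om c _ hh homp hc (by positivity) (hvv N j hN1 hj).1
  have hF : ∀ j ∈ Finset.Icc 1 N, 1 - (lj 𝒢 R N j * Real.sin a / Wf Ω a (lj 𝒢 R N j)) ^ (n - 1) ≤
      n * (ε / √(R / N) * (1 / √(j : ℝ))) := by
    intro j hj
    have hj1 : 1 ≤ j := (Finset.mem_Icc.1 hj).1
    have hjr : (0 : ℝ) < j := by exact_mod_cast hj1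
    have hl1 := hlj j hj
    have hl0 : 0 < c1 * (j * (R / N)) := by positivity
    have hlp : 0 < lj 𝒢 R N j := lt_of_lt_of_le hl0 hl1
    refine (JML_F n hn Ω a _ hΩp ha0 ha2 hlp).trans ?_
    refine mul_le_mul_of_nonneg_left ?_ (Nat.cast_nonneg _)
    have e1 : Ω * Real.cos a / (lj 𝒢 R N j * Real.sin a) = Ω / lj 𝒢 R N j * (Real.cos a / Real.sin a) := by
      field_simp
    have e2 : Ω / lj 𝒢 R N j * (Real.cos a / Real.sin a) ≤ Ωm / (c1 * (j * (R / N))) * (1 / T) := by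
      rw [hcot]
      refine mul_le_mul_of_nonneg_right ?_ (by positivity)
      exact div_le_div₀ hΩmp.le hΩ.2 hl0 hl1
    have e3 : Ωm / (c1 * (j * (R / N))) * (1 / T) = (ε / √(R / N) * (1 / √(j : ℝ))) ^ 2 := by
      rw [mul_pow, div_pow, div_pow, Real.sq_sqrt hh.le, Real.sq_sqrt hjr.le, hT]
      field_simp
    rw [e1]
    refine (Real.sqrt_le_sqrt (e2.trans (le_of_eq e3))).trans ?_
    rw [Real.sqrt_sq (by positivity)]
  have hsum1 : ∑ j ∈ Finset.Icc 1 N, R / N * (1 - (lj 𝒢 R N j * Real.sin a / Wf Ω a (lj 𝒢 R N j)) ^ (n - 1)) ≤ η / 2 := by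
    calc ∑ j ∈ Finset.Icc 1 N, R / N * (1 - (lj 𝒢 R N j * Real.sin a / Wf Ω a (lj 𝒢 R N j)) ^ (n - 1))
        ≤ ∑ j ∈ Finset.Icc 1 N, R / N * (n * (ε / √(R / N) * (1 / √(j : ℝ)))) :=
          Finset.sum_le_sum fun j hj => mul_le_mul_of_nonneg_left (hF j hj) hh.le
      _ = R / N * (n * (ε / √(R / N))) * ∑ j ∈ Finset.Icc 1 N, 1 / √(j : ℝ) := by
          rw [Finset.mul_sum]
          exact Finset.sum_congr rfl fun j _ => by ring
      _ ≤ R / N * (n * (ε / √(R / N))) * (2 * √(N : ℝ)) := mul_le_mul_of_nonneg_left (JML_isum N) (by positivity)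
      _ = 2 * n * ε * (√(R / N) * √(N : ℝ)) := by
          have e4 : R / N = √(R / N) * √(R / N) := (Real.mul_self_sqrt hh.le).symm
          have e5 : 0 < √(R / N) := Real.sqrt_pos.2 hh
          calc R / N * (n * (ε / √(R / N))) * (2 * √(N : ℝ))
              = (√(R / N) * √(R / N)) * (n * (ε / √(R / N))) * (2 * √(N : ℝ)) := by rw [← e4]
            _ = 2 * n * ε * (√(R / N) * √(N : ℝ)) := by
                field_simp
      _ = 2 * n * ε * √R := by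
          rw [← Real.sqrt_mul hh.le]
          congr 2
          field_simp
      _ = η / 2 := by
          rw [hε]
          field_simp
          ring
  -- the second error
  have hsecond : Ω * (cW n * ((n + 1) * (C * (R / N)) / (n * kap n * (Ω * Real.cos a) ^ n))) ≤ η / 2 := by
    have e1 : (n + 1) * (C * (R / N)) / (n * kap n * (Ω * Real.cos a) ^ n) ≤
        (n + 1) * (C * (R / N)) / (n * kap n * (Ω0 * Real.cos a) ^ n) := by
      refine div_le_div_of_nonneg_left (by positivity) (by positivity) ?_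
      refine mul_le_mul_of_nonneg_left ?_ (by positivity)
      exact pow_le_pow_left₀ (by positivity) (mul_le_mul_of_nonneg_right hΩ.1 hcos.le) n
    calc Ω * (cW n * ((n + 1) * (C * (R / N)) / (n * kap n * (Ω * Real.cos a) ^ n)))
        ≤ Ωm * (cW n * ((n + 1) * (C * (R / N)) / (n * kap n * (Ω0 * Real.cos a) ^ n))) :=
          mul_le_mul hΩ.2 (mul_le_mul_of_nonneg_left e1 hcW.le) (by positivity) hΩmp.le
      _ = K / N := by
          rw [hK]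
          field_simp
      _ ≤ η / 2 := by
          rw [div_le_iff₀ hη] at hNK
          rw [div_le_iff₀ hNr]
          linarith
  have hsplit : ∑ j ∈ Finset.Icc 1 N, R / N * (1 - yh n (Ω / lj 𝒢 R N j)) ^ (((n : ℝ) + 1) / ((n : ℝ) - 1)) =
      (∑ j ∈ Finset.Icc 1 N, R / N *
          ((1 - yh n (Ω / lj 𝒢 R N j)) ^ (((n : ℝ) + 1) / ((n : ℝ) - 1)) -
            (1 - (lj 𝒢 R N j * Real.sin a / Wf Ω a (lj 𝒢 R N j)) ^ (n - 1)))) +
      ∑ j ∈ Finset.Icc 1 N, R / N * (1 - (lj 𝒢 R N j * Real.sin a / Wf Ω a (lj 𝒢 R N j)) ^ (n - 1)) := by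
    rw [← Finset.sum_add_distrib]
    exact Finset.sum_congr rfl fun j _ => by ring
  rw [hsplit]
  linarith

end Pool.Agent.CRO
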